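import Pool.Agent.TH743.SS.Twist

open NumberField

namespace Pool.Agent.TH743.SS

section Old

open Pool.Agent.TH965.St

variable {M : Type} [CommGroup M]

/-- Characters of order not divisible by four. -/
theorem exact_small (A : Family M) (N : ℕ)
    (H : ∀ (K : IntermediateField ℚ Qb) [NumberField K], N ≤ InfinitePlace.nrComplexPlaces K →
      ∀ ψ : LinChar K, (IsTotallyComplex K ∨ ∀ g, ψ.hom g = 1) → A.D K ψ.fn = 1)
    {m : ℕ} (hm : Odd m) (K : IntermediateField ℚ Qb) (hK : NumberField K) (η : LinChar K)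
    (hη : ∀ g, η.hom g ^ (2 * m) = 1) : A.D K η.fn = 1 := by
  have HT : KillsTC A N := fun K _ hN hc ψ => H K hN ψ (Or.inl (totallyComplex_of_no_cc hc))
  have H1 : ∀ (K : IntermediateField ℚ Qb) [NumberField K],
      N ≤ InfinitePlace.nrComplexPlaces K → ∀ ψ : LinChar K, (∀ g, ψ.hom g = 1) →
      A.D K ψ.fn = 1 := fun K _ hN ψ h => H K hN ψ (Or.inr h)
  have h1 := (twist_virt A N H hm K hK η hη (LinChar.one : LinChar K).fn
    (fn_mem_virt hK _)).2
  have e1 : (fun g => (LinChar.one : LinChar K).fn g * η.fn g) = η.fn := by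
    funext g
    by_cases hg : g ∈ K.fixingSubgroup
    · rw [LinChar.one_fn _ hg, one_mul]
    · rw [η.fn_of_not_mem hg, mul_zero]
  rw [e1] at h1
  rw [h1]
  -- the trivial character
  have HS : ∀ (K : IntermediateField ℚ Qb) [NumberField K],
      N ≤ InfinitePlace.nrComplexPlaces K → ∀ (m : ℕ), Odd m → ∀ ψ : LinChar K,
      (∀ g, ψ.hom g ^ (2 * m) = 1) → A.D K ψ.fn = 1 := by
    intro K hK hN m hm ψ hψ
    have h2 := twist HT H1 K hN m hm LinChar.one ψ hψ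
    rw [H1 K hN LinChar.one (fun _ => rfl)] at h2
    rw [← h2]
    congr 1
    refine fn_congr fun g => ?_
    show ψ.hom g = 1 * ψ.hom g
    rw [one_mul]
  classical
  obtain ⟨p, hp, hpp⟩ := Nat.exists_infinite_primes (Module.finrank ℚ K + 2 * N + 3)
  have : Fact p.Prime := ⟨hpp⟩
  obtain ⟨ζ, hζ⟩ : ∃ ζ : Qb, IsPrimitiveRoot ζ p := by
    have : NeZero (p : Qb) := ⟨by exact_mod_cast hpp.ne_zero⟩
    exact HasEnoughRootsOfUnity.exists_primitiveRoot Qb p
  obtain ⟨y, hy⟩ : ∃ y : Qb, y ^ p = 2 := IsAlgClosed.exists_pow_nat_eq 2 hpp.pos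
  have hy0 : y ≠ 0 := by
    rintro rfl
    rw [zero_pow hpp.ne_zero] at hy
    norm_num at hy
  obtain ⟨τ⟩ : Nonempty (Qb →+* ℂ) := ⟨(IsAlgClosed.lift (R := ℚ) (S := Qb) (M := ℂ)).toRingHom⟩
  have hFy : NumberField (IntermediateField.adjoin ℚ {y}) := nf_adjoin y
  have hFz : NumberField (IntermediateField.adjoin ℚ {ζ}) := nf_adjoin ζ
  have hK1 : NumberField (K ⊔ IntermediateField.adjoin ℚ {y} : IntermediateField ℚ Qb) :=
    nf_sup hK hFy
  have hK2 : NumberField (K ⊔ IntermediateField.adjoin ℚ {ζ} : IntermediateField ℚ Qb) :=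
    nf_sup hK hFz
  have hyp : ∀ g : GQ, g (y ^ p) = y ^ p := by
    intro g
    rw [hy, map_ofNat]
  have hp2 : p ≠ 2 := by omega
  have r1 : N ≤ InfinitePlace.nrComplexPlaces
      (K ⊔ IntermediateField.adjoin ℚ {y} : IntermediateField ℚ Qb) := by
    have a1 := r2_two hpp hp2 hy
    have a2 := r2_mono (F := IntermediateField.adjoin ℚ {y})
      (F' := K ⊔ IntermediateField.adjoin ℚ {y}) le_sup_right
    omega
  have r2 : N ≤ InfinitePlace.nrComplexPlaces
      (K ⊔ IntermediateField.adjoin ℚ {ζ} : IntermediateField ℚ Qb) := by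
    have a1 := r2_cyc hpp hp2 hζ
    have a2 := r2_mono (F := IntermediateField.adjoin ℚ {ζ})
      (F' := K ⊔ IntermediateField.adjoin ℚ {ζ}) le_sup_right
    omega
  have key := A.of_identity hK hK1 hK2 le_sup_left le_sup_left _
    (kummer_identity (K := K) (K1 := K ⊔ IntermediateField.adjoin ℚ {y})
      (K2 := K ⊔ IntermediateField.adjoin ℚ {ζ}) hζ τ hy0 le_sup_left le_sup_left
      (fun g _ => hyp g) (fun g _ => hyp g)
      (fun g hg => ((mem_fix_sup K ζ g).1 hg).2)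
      (fun g hg => ⟨fun h => ((mem_fix_sup K ζ g).1 h).2, fun h => (mem_fix_sup K ζ g).2 ⟨hg, h⟩⟩)
      (fun g hg => ⟨fun h => ((mem_fix_sup K y g).1 h).2, fun h => (mem_fix_sup K y g).2 ⟨hg, h⟩⟩)
      (fun i => trans_two hζ K (by omega) hy i)) (LinChar.one : LinChar K)
  rw [H1 _ r1 _ (fun g => rfl)] at key
  have hTC : ∀ c ∈ (K ⊔ IntermediateField.adjoin ℚ {ζ}).fixingSubgroup, ¬ IsCC c := by
    rintro c hc ⟨j, hj⟩
    have h3 : c ζ = ζ := ((mem_fix_sup K ζ c).1 hc).2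
    have h4 := hj ζ
    rw [h3] at h4
    have h5 : IsPrimitiveRoot (j ζ) p := hζ.map_of_injective j.injective
    have h6 : (starRingEnd ℂ) (j ζ) = (j ζ)⁻¹ := by
      have hn : ‖j ζ‖ = 1 := h5.norm'_eq_one hpp.ne_zero
      rw [Complex.inv_def, Complex.normSq_eq_norm_sq, hn]
      simp
    rw [h6] at h4
    have h7 : (j ζ) ^ 2 = 1 := by
      have h0 : j ζ ≠ 0 := h5.ne_zero hpp.ne_zero
      rw [sq]
      nth_rewrite 1 [h4]
      exact inv_mul_cancel₀ h0
    have h8 := Nat.le_of_dvd (by norm_num) (h5.dvd_of_pow_eq_one 2 h7)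
    omega
  rw [Finset.prod_eq_one (fun a _ => HT _ r2 hTC _), mul_one] at key
  exact key.symm

theorem old_all (T : Subgroup M) (A : Family M) (N : ℕ)
    (H : ∀ (K : IntermediateField ℚ Qb) [NumberField K], N ≤ InfinitePlace.nrComplexPlaces K →
      ∀ ψ : LinChar K, (IsTotallyComplex K ∨ ∀ g, ψ.hom g = 1) → A.D K ψ.fn ∈ T)
    (K : IntermediateField ℚ Qb) (hK : NumberField K) :
    (∀ f ∈ Virt K, A.D K f ^ 2 ∈ T ∧ ∀ (η : LinChar K) (m : ℕ), Odd m →
      (∀ g, η.hom g ^ (2 * m) = 1) → A.D K (fun g => f g * η.fn g) / A.D K f ∈ T) ∧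
    ∀ (η : LinChar K) (m : ℕ), Odd m → (∀ g, η.hom g ^ (2 * m) = 1) → A.D K η.fn ∈ T := by
  have H' : ∀ (K : IntermediateField ℚ Qb) [NumberField K], N ≤ InfinitePlace.nrComplexPlaces K →
      ∀ ψ : LinChar K, (IsTotallyComplex K ∨ ∀ g, ψ.hom g = 1) → (A.quot T).D K ψ.fn = 1 :=
    fun K _ hN ψ h => (QuotientGroup.eq_one_iff _).2 (H K hN ψ h)
  refine ⟨fun f hf => ⟨?_, fun η m hm hη => ?_⟩, fun η m hm hη => ?_⟩
  · have h1 := up_to_sign (A.quot T) N H' K hK f hf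
    have h2 : ((A.D K f ^ 2 : M) : M ⧸ T) = 1 := h1
    exact (QuotientGroup.eq_one_iff _).1 h2
  · have h1 := (twist_virt (A.quot T) N H' hm K hK η hη f hf).2
    have h2 : ((A.D K (fun g => f g * η.fn g) / A.D K f : M) : M ⧸ T) = 1 := by
      have h3 : ((A.D K (fun g => f g * η.fn g) : M) : M ⧸ T) = ((A.D K f : M) : M ⧸ T) := h1
      rw [QuotientGroup.mk_div, h3, div_self']
    exact (QuotientGroup.eq_one_iff _).1 h2
  · have h1 := exact_small (A.quot T) N H' hm K hK η hη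
    exact (QuotientGroup.eq_one_iff _).1 h1

end Old

open Pool.Agent.TH965.Stk

theorem new_all {M : Type} [CommGroup M] (T : Subgroup M) (A : Family M) (N : ℕ)
    (H : ∀ K, IsNF K → N ≤ r2 K → ∀ ψ : LinChar K, (IsTC K ∨ ∀ g, ψ.hom g = 1) →
      A.D K ψ.fn ∈ T) (K : SubQ) (hK : IsNF K) :
    (∀ f ∈ Virt K, A.D K f ^ 2 ∈ T ∧ ∀ (η : LinChar K) (m : ℕ), Odd m →
      (∀ g, η.hom g ^ (2 * m) = 1) → A.D K (fun g => f g * η.fn g) / A.D K f ∈ T) ∧
    ∀ (η : LinChar K) (m : ℕ), Odd m → (∀ g, η.hom g ^ (2 * m) = 1) → A.D K η.fn ∈ T := by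
  have h := old_all T A.old N (by
    intro K hK hN ψ h1
    exact H K hK (by rw [r2_old K hK]; exact hN) (LinChar.new (K := K) ψ) h1) K.toIF hK
  refine ⟨fun f hf => ?_, fun η m hm hη => h.2 η.old m hm hη⟩
  have hf' : f ∈ Pool.Agent.TH965.St.Virt K.toIF := by rw [virt_old K]; exact hf
  exact ⟨(h.1 f hf').1, fun η m hm hη => (h.1 f hf').2 η.old m hm hη⟩

end Pool.Agent.TH743.SS
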