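import Pool.Agent.TH965.St.Quot

open NumberField Pool.Agent.TH965.St

namespace Pool.Agent.TH743.SS

variable {K K1 K2 : IntermediateField ℚ Qb}

theorem pm_of {s : Qb} {g : GQ} (h : g (s ^ 2) = s ^ 2) : g s = s ∨ g s = -s := by
  have h1 : (g s) ^ 2 = s ^ 2 := by rw [← map_pow, h]
  exact sq_eq_sq_iff_eq_or_eq_neg.1 h1

open Classical in
/-- the quadratic character of the square root `s` of an element of `K` -/
noncomputable def qc (K : IntermediateField ℚ Qb) (s : Qb)
    (hs : ∀ g ∈ K.fixingSubgroup, g (s ^ 2) = s ^ 2) : LinChar K where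
  hom :=
    { toFun := fun g => if (g : GQ) s = s then 1 else -1
      map_one' := if_pos rfl
      map_mul' := by
        intro g h
        rcases pm_of (hs _ h.2) with h1 | h1
        · rw [if_pos h1, mul_one]
          have : ((g * h : K.fixingSubgroup) : GQ) s = (g : GQ) s := by
            rw [Subgroup.coe_mul, AlgEquiv.mul_apply, h1]
          rw [this]
        · have h2 : ((g * h : K.fixingSubgroup) : GQ) s = -((g : GQ) s) := by
            rw [Subgroup.coe_mul, AlgEquiv.mul_apply, h1, map_neg]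
          by_cases h0 : (h : GQ) s = s
          · have hz : s = 0 := by
              rw [h0] at h1
              exact self_eq_neg.1 h1
            subst hz
            simp
          · rw [if_neg h0, h2]
            rcases pm_of (hs _ g.2) with h3 | h3
            · rw [if_pos h3, h3, if_neg (fun h4 => h0 (h1.trans h4))]
              simp
            · rw [h3, neg_neg, if_pos rfl, if_neg]
              · simp
              · intro h4
                exact h0 (h1.trans h4)  }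
  smooth := ⟨IntermediateField.adjoin ℚ {s}, nf_adjoin s, fun g hg =>
    if_pos ((mem_fix_adjoin s g).1 hg)⟩

theorem qc_fix {s : Qb} (hs : ∀ g ∈ K.fixingSubgroup, g (s ^ 2) = s ^ 2) {g : K.fixingSubgroup}
    (h : (g : GQ) s = s) : (qc K s hs).hom g = 1 := by
  classical
  show (if (g : GQ) s = s then (1 : ℂˣ) else -1) = 1
  rw [if_pos h]

theorem qc_ne {s : Qb} (hs : ∀ g ∈ K.fixingSubgroup, g (s ^ 2) = s ^ 2) {g : K.fixingSubgroup}
    (h : (g : GQ) s ≠ s) : (qc K s hs).hom g = -1 := by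
  classical
  show (if (g : GQ) s = s then (1 : ℂˣ) else -1) = -1
  rw [if_neg h]

theorem qc_sq {s : Qb} (hs : ∀ g ∈ K.fixingSubgroup, g (s ^ 2) = s ^ 2) (g : K.fixingSubgroup) :
    (qc K s hs).hom g ^ 2 = 1 := by
  by_cases h : (g : GQ) s = s
  · rw [qc_fix hs h, one_pow]
  · rw [qc_ne hs h]; simp

theorem neg_one_ne : (-1 : ℂˣ) ≠ 1 := by
  intro h
  have h2 : (-1 : ℂ) = 1 := by
    have := congrArg Units.val h
    simpa using this
  norm_num at h2

theorem qc_one_iff {s : Qb} (hs : ∀ g ∈ K.fixingSubgroup, g (s ^ 2) = s ^ 2)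
    (g : K.fixingSubgroup) : (qc K s hs).hom g = 1 ↔ (g : GQ) s = s := by
  constructor
  · intro h
    by_contra h1
    rw [qc_ne hs h1] at h
    exact neg_one_ne h
  · exact qc_fix hs

theorem qc_fn_fix {s : Qb} (hs : ∀ g ∈ K.fixingSubgroup, g (s ^ 2) = s ^ 2) {g : GQ}
    (hg : g ∈ K.fixingSubgroup) (h : g s = s) : (qc K s hs).fn g = 1 := by
  rw [LinChar.fn_of_mem _ hg, qc_fix hs (g := ⟨g, hg⟩) h, Units.val_one]

theorem qc_fn_ne {s : Qb} (hs : ∀ g ∈ K.fixingSubgroup, g (s ^ 2) = s ^ 2) {g : GQ}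
    (hg : g ∈ K.fixingSubgroup) (h : g s ≠ s) : (qc K s hs).fn g = -1 := by
  rw [LinChar.fn_of_mem _ hg, qc_ne hs (g := ⟨g, hg⟩) h]
  simp

/-- induction from a subgroup of index two -/
theorem ind_two (μ : LinChar K1) {h : GQ} (hh : h ∈ K.fixingSubgroup)
    (hh1 : h ∉ K1.fixingSubgroup)
    (hidx : ∀ g ∈ K.fixingSubgroup, g ∈ K1.fixingSubgroup ∨ h⁻¹ * g ∈ K1.fixingSubgroup) (g : GQ) :
    ind K K1 μ.fn g = μ.fn g + μ.fn (h⁻¹ * g * h) := by
  unfold ind
  let rep : Bool → K.fixingSubgroup := fun b => if b then ⟨h, hh⟩ else 1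
  let Φ : Bool → (K.fixingSubgroup ⧸ (K1.fixingSubgroup.subgroupOf K.fixingSubgroup)) :=
    fun b => QuotientGroup.mk (rep b)
  have hΦ : Function.Bijective Φ := by
    constructor
    · intro b b' hb
      have h1 := QuotientGroup.eq.1 hb
      rw [Subgroup.mem_subgroupOf] at h1
      cases b <;> cases b' <;> simp only [rep] at h1 ⊢
      · exfalso; apply hh1; simpa using h1
      · exfalso; apply hh1
        have h2 : (h : GQ)⁻¹ ∈ K1.fixingSubgroup := by simpa using h1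
        exact (Subgroup.inv_mem_iff _).1 h2
    · intro q
      induction q using QuotientGroup.induction_on with
      | H q =>
        rcases hidx q q.2 with h1 | h1
        · refine ⟨false, QuotientGroup.eq.2 ?_⟩
          rw [Subgroup.mem_subgroupOf]
          simpa [rep] using h1
        · refine ⟨true, QuotientGroup.eq.2 ?_⟩
          rw [Subgroup.mem_subgroupOf]
          simpa [rep] using h1
  have key : ∀ b, μ.fn (((rep b : K.fixingSubgroup) : GQ)⁻¹ * g * (rep b : GQ)) =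
      μ.fn ((((Φ b).out : K.fixingSubgroup) : GQ)⁻¹ * g * (((Φ b).out : K.fixingSubgroup) : GQ)) := by
    intro b
    obtain ⟨⟨k, hk⟩, hk2⟩ := QuotientGroup.mk_out_eq_mul
      (K1.fixingSubgroup.subgroupOf K.fixingSubgroup) (rep b)
    have e : ((Φ b).out : K.fixingSubgroup) = rep b * k := hk2
    rw [e, Subgroup.coe_mul]
    have e2 : ((rep b : GQ) * (k : GQ))⁻¹ * g * ((rep b : GQ) * (k : GQ)) =
        (k : GQ)⁻¹ * (((rep b : GQ))⁻¹ * g * (rep b : GQ)) * (k : GQ) := by group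
    rw [e2]
    exact (μ.conj_fn _ ⟨(k : GQ), Subgroup.mem_subgroupOf.1 hk⟩).symm
  rw [← finsum_eq_of_bijective Φ hΦ
    (f := fun b => μ.fn (((rep b : K.fixingSubgroup) : GQ)⁻¹ * g * (rep b : GQ))) key]
  rw [finsum_eq_sum_of_fintype, Fintype.sum_bool]
  simp only [rep, Bool.false_eq_true, ↓reduceIte]
  rw [add_comm]
  simp

theorem inv_app {g : GQ} {x y : Qb} (h : g x = y) : g⁻¹ y = x := by
  rw [← h]
  exact AlgEquiv.symm_apply_apply g x

/-- the identity of the two dimensional representation of the dihedral group of order eight -/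
theorem d4 (h1 : K ≤ K1) (h2 : K ≤ K2) {s t A B x : Qb}
    (hx : ∀ g ∈ K.fixingSubgroup, g x = x) (hs2 : ∀ g ∈ K.fixingSubgroup, g (s ^ 2) = s ^ 2)
    (hA : A ^ 2 = x + s) (hB : B ^ 2 = x - s) (ht : A * B = t)
    (hK1 : ∀ g ∈ K.fixingSubgroup, g ∈ K1.fixingSubgroup ↔ g s = s)
    (hK2 : ∀ g ∈ K.fixingSubgroup, g ∈ K2.fixingSubgroup ↔ g t = t)
    (hs : ∃ h ∈ K.fixingSubgroup, h s ≠ s) (htt : ∃ h ∈ K.fixingSubgroup, h t ≠ t)
    (hqA : ∀ g ∈ K1.fixingSubgroup, g (A ^ 2) = A ^ 2)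
    (hqC : ∀ g ∈ K2.fixingSubgroup, g ((A + B) ^ 2) = (A + B) ^ 2) :
    ind K K1 (qc K1 A hqA).fn = ind K K2 (qc K2 (A + B) hqC).fn := by
  obtain ⟨h, hh, hhs⟩ := hs
  obtain ⟨k, hk, hkt⟩ := htt
  have hs0 : s ≠ 0 := by rintro rfl; exact hhs (map_zero h)
  have ht0 : t ≠ 0 := by rintro rfl; exact hkt (map_zero k)
  have hA0 : A ≠ 0 := by rintro rfl; exact ht0 (by rw [← ht, zero_mul])
  have hB0 : B ≠ 0 := by rintro rfl; exact ht0 (by rw [← ht, mul_zero])
  have hprod : (A + B) * (A - B) = 2 * s := by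
    have : (A + B) * (A - B) = A ^ 2 - B ^ 2 := by ring
    rw [this, hA, hB]; ring
  have h2s : (2 : Qb) * s ≠ 0 := mul_ne_zero two_ne_zero hs0
  have hC0 : A + B ≠ 0 := by intro h0; rw [h0, zero_mul] at hprod; exact h2s hprod.symm
  have hE0 : A - B ≠ 0 := by intro h0; rw [h0, mul_zero] at hprod; exact h2s hprod.symm
  have ht2 : t ^ 2 = x ^ 2 - s ^ 2 := by
    rw [← ht, mul_pow, hA, hB]; ring
  have ht2' : ∀ g ∈ K.fixingSubgroup, g (t ^ 2) = t ^ 2 := by
    intro g hg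
    rw [ht2, map_sub, map_pow g x 2, hx g hg, hs2 g hg]
  have hhs' : h s = -s := (pm_of (hs2 h hh)).resolve_left hhs
  have hkt' : k t = -t := (pm_of (ht2' k hk)).resolve_left hkt
  have hidx1 : ∀ g ∈ K.fixingSubgroup, g ∈ K1.fixingSubgroup ∨ h⁻¹ * g ∈ K1.fixingSubgroup := by
    intro g hg
    rcases pm_of (hs2 g hg) with h3 | h3
    · exact Or.inl ((hK1 g hg).2 h3)
    · right
      rw [hK1 _ (K.fixingSubgroup.mul_mem (K.fixingSubgroup.inv_mem hh) hg), AlgEquiv.mul_apply, h3]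
      exact inv_app hhs'
  have hidx2 : ∀ g ∈ K.fixingSubgroup, g ∈ K2.fixingSubgroup ∨ k⁻¹ * g ∈ K2.fixingSubgroup := by
    intro g hg
    rcases pm_of (ht2' g hg) with h3 | h3
    · exact Or.inl ((hK2 g hg).2 h3)
    · right
      rw [hK2 _ (K.fixingSubgroup.mul_mem (K.fixingSubgroup.inv_mem hk) hg), AlgEquiv.mul_apply, h3]
      exact inv_app hkt'
  have hh1 : h ∉ K1.fixingSubgroup := fun h3 => hhs ((hK1 h hh).1 h3)
  have hk1 : k ∉ K2.fixingSubgroup := fun h3 => hkt ((hK2 k hk).1 h3)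
  funext g
  by_cases hg : g ∈ K.fixingSubgroup
  swap
  · rw [ind_of_not_mem h1 _ hg, ind_of_not_mem h2 _ hg]
  rw [ind_two _ hh hh1 hidx1, ind_two _ hk hk1 hidx2]
  have hgh : h⁻¹ * g * h ∈ K.fixingSubgroup :=
    K.fixingSubgroup.mul_mem (K.fixingSubgroup.mul_mem (K.fixingSubgroup.inv_mem hh) hg) hh
  have hgk : k⁻¹ * g * k ∈ K.fixingSubgroup :=
    K.fixingSubgroup.mul_mem (K.fixingSubgroup.mul_mem (K.fixingSubgroup.inv_mem hk) hg) hk
  -- conjugates
  have cjS : (h⁻¹ * g * h) s = s ↔ g s = s := by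
    rw [AlgEquiv.mul_apply, AlgEquiv.mul_apply, hhs']
    constructor
    · intro h3
      have h4 := congrArg h h3
      have h5 : h (h⁻¹ (g (-s))) = g (-s) := AlgEquiv.apply_symm_apply h _
      rw [h5, hhs', map_neg] at h4
      exact neg_injective h4
    · intro h3
      rw [map_neg, h3]
      exact inv_app hhs'
  have cjT : (k⁻¹ * g * k) t = t ↔ g t = t := by
    rw [AlgEquiv.mul_apply, AlgEquiv.mul_apply, hkt']
    constructor
    · intro h3
      have h4 := congrArg k h3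
      have h5 : k (k⁻¹ (g (-t))) = g (-t) := AlgEquiv.apply_symm_apply k _
      rw [h5, hkt', map_neg] at h4
      exact neg_injective h4
    · intro h3
      rw [map_neg, h3]
      exact inv_app hkt'
  have hhA : h A = B ∨ h A = -B := by
    have : (h A) ^ 2 = B ^ 2 := by
      rw [← map_pow, hA, map_add, hx h hh, hhs', hB]; ring
    exact sq_eq_sq_iff_eq_or_eq_neg.1 this
  have cjA : (h⁻¹ * g * h) A = A ↔ g B = B := by
    rw [AlgEquiv.mul_apply, AlgEquiv.mul_apply]
    have e : h⁻¹ (g (h A)) = A ↔ g (h A) = h A := by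
      constructor
      · intro h3
        have h4 := congrArg h h3
        have h5 : h (h⁻¹ (g (h A))) = g (h A) := AlgEquiv.apply_symm_apply h _
        rwa [h5] at h4
      · intro h3
        rw [h3]
        exact inv_app rfl
    rw [e]
    rcases hhA with h3 | h3
    · rw [h3]
    · rw [h3, map_neg, neg_inj]
  have hkC : k (A + B) = A - B ∨ k (A + B) = -(A - B) := by
    have : (k (A + B)) ^ 2 = (A - B) ^ 2 := by
      rw [← map_pow]
      have e1 : (A + B) ^ 2 = 2 * x + 2 * t := by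
        have : (A + B) ^ 2 = A ^ 2 + B ^ 2 + 2 * (A * B) := by ring
        rw [this, hA, hB, ht]; ring
      have e2 : (A - B) ^ 2 = 2 * x - 2 * t := by
        have : (A - B) ^ 2 = A ^ 2 + B ^ 2 - 2 * (A * B) := by ring
        rw [this, hA, hB, ht]; ring
      rw [e1, e2, map_add, map_mul, map_mul, hx k hk, hkt', map_ofNat]; ring
    exact sq_eq_sq_iff_eq_or_eq_neg.1 this
  have cjC : (k⁻¹ * g * k) (A + B) = A + B ↔ g (A - B) = A - B := by
    rw [AlgEquiv.mul_apply, AlgEquiv.mul_apply]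
    have e : k⁻¹ (g (k (A + B))) = A + B ↔ g (k (A + B)) = k (A + B) := by
      constructor
      · intro h3
        have h4 := congrArg k h3
        have h5 : k (k⁻¹ (g (k (A + B)))) = g (k (A + B)) := AlgEquiv.apply_symm_apply k _
        rwa [h5] at h4
      · intro h3
        rw [h3]
        exact inv_app rfl
    rw [e]
    rcases hkC with h3 | h3
    · rw [h3]
    · rw [h3, map_neg, neg_inj]
  have hneg : ∀ {z : Qb}, z ≠ 0 → -z ≠ z := fun hz h3 => hz (neg_eq_self.1 h3)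
  have hgt : g t = g A * g B := by rw [← ht, map_mul]
  rcases pm_of (hs2 g hg) with hgs | hgs
  · have hg1 : g ∈ K1.fixingSubgroup := (hK1 g hg).2 hgs
    have hg1' : h⁻¹ * g * h ∈ K1.fixingSubgroup := (hK1 _ hgh).2 (cjS.2 hgs)
    have hgA : g A = A ∨ g A = -A := pm_of (by rw [hA, map_add, hx g hg, hgs])
    have hgB : g B = B ∨ g B = -B := pm_of (by rw [hB, map_sub, hx g hg, hgs])
    rcases hgA with hgA | hgA <;> rcases hgB with hgB | hgB
    · have hgt' : g t = t := by rw [hgt, hgA, hgB, ht]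
      have hg2 : g ∈ K2.fixingSubgroup := (hK2 g hg).2 hgt'
      have hg2' : k⁻¹ * g * k ∈ K2.fixingSubgroup := (hK2 _ hgk).2 (cjT.2 hgt')
      rw [qc_fn_fix _ hg1 hgA, qc_fn_fix _ hg1' (cjA.2 hgB),
        qc_fn_fix _ hg2 (by rw [map_add, hgA, hgB]),
        qc_fn_fix _ hg2' (cjC.2 (by rw [map_sub, hgA, hgB]))]
    · have hgt' : g t ≠ t := by
        rw [hgt, hgA, hgB, mul_neg, ht]; exact hneg ht0
      have hg2 : g ∉ K2.fixingSubgroup := fun h3 => hgt' ((hK2 g hg).1 h3)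
      have hg2' : k⁻¹ * g * k ∉ K2.fixingSubgroup := fun h3 =>
        hgt' (cjT.1 ((hK2 _ hgk).1 h3))
      rw [qc_fn_fix _ hg1 hgA, qc_fn_ne _ hg1' (fun h3 => hneg hB0 (hgB ▸ cjA.1 h3)),
        LinChar.fn_of_not_mem _ hg2, LinChar.fn_of_not_mem _ hg2']
      ring
    · have hgt' : g t ≠ t := by
        rw [hgt, hgA, hgB, neg_mul, ht]; exact hneg ht0
      have hg2 : g ∉ K2.fixingSubgroup := fun h3 => hgt' ((hK2 g hg).1 h3)
      have hg2' : k⁻¹ * g * k ∉ K2.fixingSubgroup := fun h3 =>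
        hgt' (cjT.1 ((hK2 _ hgk).1 h3))
      rw [qc_fn_ne _ hg1 (by rw [hgA]; exact hneg hA0), qc_fn_fix _ hg1' (cjA.2 hgB),
        LinChar.fn_of_not_mem _ hg2, LinChar.fn_of_not_mem _ hg2']
      ring
    · have hgt' : g t = t := by rw [hgt, hgA, hgB, neg_mul_neg, ht]
      have hg2 : g ∈ K2.fixingSubgroup := (hK2 g hg).2 hgt'
      have hg2' : k⁻¹ * g * k ∈ K2.fixingSubgroup := (hK2 _ hgk).2 (cjT.2 hgt')
      have e1 : g (A + B) = -(A + B) := by rw [map_add, hgA, hgB]; ring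
      have e2 : g (A - B) = -(A - B) := by rw [map_sub, hgA, hgB]; ring
      rw [qc_fn_ne _ hg1 (by rw [hgA]; exact hneg hA0),
        qc_fn_ne _ hg1' (fun h3 => hneg hB0 (hgB ▸ cjA.1 h3)),
        qc_fn_ne _ hg2 (by rw [e1]; exact hneg hC0),
        qc_fn_ne _ hg2' (fun h3 => hneg hE0 (e2 ▸ cjC.1 h3))]
  · have hgs' : g s ≠ s := by rw [hgs]; exact hneg hs0
    have hg1 : g ∉ K1.fixingSubgroup := fun h3 => hgs' ((hK1 g hg).1 h3)
    have hg1' : h⁻¹ * g * h ∉ K1.fixingSubgroup := fun h3 => hgs' (cjS.1 ((hK1 _ hgh).1 h3))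
    rw [LinChar.fn_of_not_mem _ hg1, LinChar.fn_of_not_mem _ hg1']
    have hgA : g A = B ∨ g A = -B := by
      have : (g A) ^ 2 = B ^ 2 := by
        rw [← map_pow, hA, map_add, hx g hg, hgs, hB]; ring
      exact sq_eq_sq_iff_eq_or_eq_neg.1 this
    have hgB : g B = A ∨ g B = -A := by
      have : (g B) ^ 2 = A ^ 2 := by
        rw [← map_pow, hB, map_sub, hx g hg, hgs, hA]; ring
      exact sq_eq_sq_iff_eq_or_eq_neg.1 this
    rcases hgA with hgA | hgA <;> rcases hgB with hgB | hgB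
    · have hgt' : g t = t := by rw [hgt, hgA, hgB, mul_comm, ht]
      have hg2 : g ∈ K2.fixingSubgroup := (hK2 g hg).2 hgt'
      have hg2' : k⁻¹ * g * k ∈ K2.fixingSubgroup := (hK2 _ hgk).2 (cjT.2 hgt')
      have e1 : g (A + B) = A + B := by rw [map_add, hgA, hgB]; ring
      have e2 : g (A - B) = -(A - B) := by rw [map_sub, hgA, hgB]; ring
      rw [qc_fn_fix _ hg2 e1, qc_fn_ne _ hg2' (fun h3 => hneg hE0 (e2 ▸ cjC.1 h3))]
      ring
    · have hgt' : g t ≠ t := by
        rw [hgt, hgA, hgB, mul_neg, mul_comm, ht]; exact hneg ht0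
      have hg2 : g ∉ K2.fixingSubgroup := fun h3 => hgt' ((hK2 g hg).1 h3)
      have hg2' : k⁻¹ * g * k ∉ K2.fixingSubgroup := fun h3 =>
        hgt' (cjT.1 ((hK2 _ hgk).1 h3))
      rw [LinChar.fn_of_not_mem _ hg2, LinChar.fn_of_not_mem _ hg2']
    · have hgt' : g t ≠ t := by
        rw [hgt, hgA, hgB, neg_mul, mul_comm, ht]; exact hneg ht0
      have hg2 : g ∉ K2.fixingSubgroup := fun h3 => hgt' ((hK2 g hg).1 h3)
      have hg2' : k⁻¹ * g * k ∉ K2.fixingSubgroup := fun h3 =>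
        hgt' (cjT.1 ((hK2 _ hgk).1 h3))
      rw [LinChar.fn_of_not_mem _ hg2, LinChar.fn_of_not_mem _ hg2']
    · have hgt' : g t = t := by rw [hgt, hgA, hgB, neg_mul_neg, mul_comm, ht]
      have hg2 : g ∈ K2.fixingSubgroup := (hK2 g hg).2 hgt'
      have hg2' : k⁻¹ * g * k ∈ K2.fixingSubgroup := (hK2 _ hgk).2 (cjT.2 hgt')
      have e1 : g (A + B) = -(A + B) := by rw [map_add, hgA, hgB]; ring
      have e2 : g (A - B) = A - B := by rw [map_sub, hgA, hgB]; ring
      rw [qc_fn_ne _ hg2 (by rw [e1]; exact hneg hC0), qc_fn_fix _ hg2' (cjC.2 e2)]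
      ring

end Pool.Agent.TH743.SS
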