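import Pool.Agent.TH743.SS.D4

open NumberField Pool.Agent.TH965.St

namespace Pool.Agent.TH743.SS

/-- weak approximation at the archimedean places -/
theorem exists_near (K : Type) [Field K] [NumberField K] (t : InfinitePlace K → K) :
    ∃ a : K, ∀ φ : K →+* ℂ, ‖φ a - φ (t (InfinitePlace.mk φ))‖ < 1 := by
  classical
  have hd := InfinitePlace.denseRange_algebraMap_pi K
  have ho : IsOpen {x : (v : InfinitePlace K) → WithAbs v.1 |
      ∀ v, ‖x v - WithAbs.toAbs v.1 (t v)‖ < 1} := by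
    have h : {x : (v : InfinitePlace K) → WithAbs v.1 |
      ∀ v, ‖x v - WithAbs.toAbs v.1 (t v)‖ < 1} = ⋂ v, {x |
        ‖x v - WithAbs.toAbs v.1 (t v)‖ < 1} := by
      ext x; simp
    rw [h]
    refine isOpen_iInter_of_finite fun v => ?_
    refine isOpen_lt ?_ continuous_const
    exact ((continuous_apply v).sub continuous_const).norm
  obtain ⟨a, ha⟩ := hd.exists_mem_open ho ⟨fun v => WithAbs.toAbs v.1 (t v), by
    intro v; simp⟩
  refine ⟨a, fun φ => ?_⟩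
  have h1 := ha (InfinitePlace.mk φ)
  have h2 : ‖φ (a - t (InfinitePlace.mk φ))‖ < 1 := h1
  rwa [map_sub] at h2

theorem exists_x (K : Type) [Field K] [NumberField K] (b : K) (P : InfinitePlace K → Prop) :
    ∃ x : K, ∀ φ : K →+* ℂ, (P (InfinitePlace.mk φ) → ‖φ x‖ < 1) ∧
      (¬ P (InfinitePlace.mk φ) → ‖φ b‖ + 1 < (φ x).re) := by
  classical
  obtain ⟨M, hM⟩ := exists_nat_ge (∑ φ : K →+* ℂ, ‖φ b‖)
  obtain ⟨x, hx⟩ := exists_near K (fun v => if P v then 0 else ((M + 2 : ℕ) : K))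
  refine ⟨x, fun φ => ⟨fun h => ?_, fun h => ?_⟩⟩
  · have h1 := hx φ
    rw [if_pos h, map_zero, sub_zero] at h1
    exact h1
  · have h1 := hx φ
    rw [if_neg h, map_natCast] at h1
    have h2 := lt_of_le_of_lt (Complex.abs_re_le_norm _) h1
    rw [Complex.sub_re, Complex.natCast_re, abs_lt] at h2
    have h3 : ‖φ b‖ ≤ ∑ φ : K →+* ℂ, ‖φ b‖ :=
      Finset.single_le_sum (f := fun φ : K →+* ℂ => ‖φ b‖) (fun _ _ => norm_nonneg _)
        (Finset.mem_univ φ)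
    push_cast at h2
    linarith [h2.1]

theorem exists_scale (K : Type) [Field K] [NumberField K] (b : K) :
    ∃ m : ℕ, 0 < m ∧ ∀ φ : K →+* ℂ, 0 < (φ b).re → 1 < (φ ((m : K) ^ 2 * b)).re := by
  classical
  obtain ⟨m, hm⟩ := exists_nat_ge (∑ φ : K →+* ℂ, |1 / (φ b).re| + 1)
  have hsum : 0 ≤ ∑ φ : K →+* ℂ, |1 / (φ b).re| := Finset.sum_nonneg fun _ _ => abs_nonneg _
  have hm1 : (1 : ℝ) ≤ m := by linarith
  refine ⟨m, by
    rcases Nat.eq_zero_or_pos m with h | h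
    · rw [h] at hm1; norm_num at hm1
    · exact h, fun φ hφ => ?_⟩
  have h1 : |1 / (φ b).re| ≤ ∑ φ : K →+* ℂ, |1 / (φ b).re| :=
    Finset.single_le_sum (f := fun φ : K →+* ℂ => |1 / (φ b).re|) (fun _ _ => abs_nonneg _)
      (Finset.mem_univ φ)
  have h2 : 1 / (φ b).re < m := by
    have := le_abs_self (1 / (φ b).re)
    linarith
  have h3 : 1 < m * (φ b).re := by
    rwa [div_lt_iff₀ hφ] at h2
  have h4 : (φ ((m : K) ^ 2 * b)).re = (m : ℝ) ^ 2 * (φ b).re := by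
    rw [map_mul, map_pow, map_natCast]
    have : ((m : ℂ) ^ 2 * φ b) = ((((m : ℝ) ^ 2 : ℝ)) : ℂ) * φ b := by push_cast; ring
    rw [this, Complex.re_ofReal_mul]
  rw [h4]
  nlinarith

variable {K K1 K2 : IntermediateField ℚ Qb}

theorem mem_of_fixed {y : Qb} (h : ∀ g ∈ K.fixingSubgroup, g y = y) : y ∈ K := by
  have h1 := InfiniteGalois.fixedField_fixingSubgroup K
  rw [← h1]
  rw [IntermediateField.mem_fixedField_iff]
  intro g hg
  exact h g hg

/-- the square root attached to a quadratic character -/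
theorem exists_s (hKK1 : K ≤ K1) (θ : LinChar K) (hθ : ∀ g, θ.hom g ^ 2 = 1)
    (hfix : ∀ g : K.fixingSubgroup, (g : GQ) ∈ K1.fixingSubgroup ↔ θ.hom g = 1)
    (hne : ∃ g, θ.hom g ≠ 1) :
    ∃ s : Qb, s ≠ 0 ∧ ∀ g : K.fixingSubgroup, (θ.hom g = 1 → (g : GQ) s = s) ∧
      (θ.hom g ≠ 1 → (g : GQ) s = -s) := by
  obtain ⟨h, hh⟩ := hne
  have hh' : θ.hom h = -1 := (sq_one_cases (hθ h)).resolve_left hh
  have h1 : (h : GQ) ∉ K1.fixingSubgroup := fun h2 => hh ((hfix h).1 h2)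
  rw [IntermediateField.mem_fixingSubgroup_iff] at h1
  push Not at h1
  obtain ⟨x, hx, hxx⟩ := h1
  have hk : ∀ g : K.fixingSubgroup, θ.hom g = 1 → ((g : GQ) x = x ∧ (g : GQ) ((h : GQ) x) =
      (h : GQ) x) := by
    intro g hg
    refine ⟨(IntermediateField.mem_fixingSubgroup_iff _ _).1 ((hfix g).2 hg) x hx, ?_⟩
    have h2 : θ.hom (h⁻¹ * g * h) = 1 := by
      rw [map_mul, map_mul, map_inv, hg, mul_one, inv_mul_cancel]
    have h3 := (IntermediateField.mem_fixingSubgroup_iff _ _).1 ((hfix _).2 h2) x hx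
    rw [Subgroup.coe_mul, Subgroup.coe_mul, Subgroup.coe_inv, AlgEquiv.mul_apply,
      AlgEquiv.mul_apply] at h3
    have h4 := congrArg (h : GQ) h3
    have h5 : (h : GQ) ((h : GQ)⁻¹ ((g : GQ) ((h : GQ) x))) = (g : GQ) ((h : GQ) x) :=
      AlgEquiv.apply_symm_apply _ _
    rwa [h5] at h4
  have hneg : (h : GQ) (x - (h : GQ) x) = -(x - (h : GQ) x) := by
    have h2 : θ.hom (h * h) = 1 := by rw [map_mul, hh']; simp
    have h3 := (hk (h * h) h2).1
    rw [Subgroup.coe_mul, AlgEquiv.mul_apply] at h3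
    rw [map_sub, h3]; ring
  refine ⟨x - (h : GQ) x, sub_ne_zero.2 (Ne.symm hxx), fun g => ⟨fun hg => ?_, fun hg => ?_⟩⟩
  · rw [map_sub, (hk g hg).1, (hk g hg).2]
  · have h2 : θ.hom (h⁻¹ * g) = 1 := by
      rw [map_mul, map_inv, hh', (sq_one_cases (hθ g)).resolve_left hg]; simp
    have h3 : (g : GQ) = (h : GQ) * ((h⁻¹ * g : K.fixingSubgroup) : GQ) := by
      rw [Subgroup.coe_mul, Subgroup.coe_inv, mul_inv_cancel_left]
    rw [h3, AlgEquiv.mul_apply]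
    have h4 : ((h⁻¹ * g : K.fixingSubgroup) : GQ) (x - (h : GQ) x) = x - (h : GQ) x := by
      rw [map_sub, (hk _ h2).1, (hk _ h2).2]
    rw [h4, hneg]

section Fam

variable {M : Type} [CommGroup M] (A : Family M) (N : ℕ)

/-- The family is trivial on linear characters of totally complex fields. -/
def KillsTC : Prop := ∀ (K : IntermediateField ℚ Qb) [NumberField K],
  N ≤ InfinitePlace.nrComplexPlaces K → (∀ c ∈ K.fixingSubgroup, ¬ IsCC c) →
  ∀ ψ : LinChar K, A.D K ψ.fn = 1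

variable {A N}

theorem odd_twist (HT : KillsTC A N) (K : IntermediateField ℚ Qb) [NumberField K]
    (hN : N ≤ InfinitePlace.nrComplexPlaces K) (χ ω : LinChar K) (hω : ∀ g, ω.hom g ^ 2 = 1)
    (hωc : ∀ c : K.fixingSubgroup, IsCC (c : GQ) → ω.hom c = -1) :
    A.D K χ.fn * A.D K (χ.mul ω).fn = 1 := by
  have hK : NumberField K := inferInstance
  by_cases hc : ∀ c ∈ K.fixingSubgroup, ¬ IsCC c
  · rw [HT K hN hc, HT K hN hc, mul_one]
  · push Not at hc
    obtain ⟨c, hcK, hcc⟩ := hc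
    obtain ⟨K', hK', h, hfix, hD⟩ := quad_field hK ω hω
      ⟨⟨c, hcK⟩, by rw [hωc ⟨c, hcK⟩ hcc]; exact neg_one_ne⟩
    rw [← hD A χ]
    refine HT K' (hN.trans (r2_mono h)) (fun c' hc' hcc' => ?_) _
    have hc'K := IntermediateField.fixingSubgroup_le h hc'
    have h1 := (hfix ⟨c', hc'K⟩).1 hc'
    rw [hωc ⟨c', hc'K⟩ hcc'] at h1
    exact neg_one_ne h1

theorem even_twist (HT : KillsTC A N) (K : IntermediateField ℚ Qb) [NumberField K]
    (hN : N ≤ InfinitePlace.nrComplexPlaces K) (χ θ : LinChar K) (hθ : ∀ g, θ.hom g ^ 2 = 1)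
    (hθc : ∀ c : K.fixingSubgroup, IsCC (c : GQ) → θ.hom c = 1) :
    A.D K (χ.mul θ).fn = A.D K χ.fn := by
  obtain ⟨ω, hω, hωc⟩ := exists_odd_quad K
  have h2 := odd_twist HT K hN χ (ω.mul θ) (by
    intro g
    show (ω.hom g * θ.hom g) ^ 2 = 1
    rw [mul_pow, hω, hθ, one_mul]) (by
    intro c hc
    show ω.hom c * θ.hom c = -1
    rw [hωc c hc, hθc c hc, mul_one])
  have h3 := odd_twist HT K hN (χ.mul θ) ω hω hωc
  have h4 : (χ.mul (ω.mul θ)).fn = ((χ.mul θ).mul ω).fn := by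
    funext g
    rw [LinChar.mul_fn, LinChar.mul_fn, LinChar.mul_fn, LinChar.mul_fn]; ring
  rw [h4] at h2
  exact mul_right_cancel (h3.trans h2.symm)

theorem mul_one_fn (ψ : LinChar K) : (ψ.mul LinChar.one).fn = ψ.fn := by
  funext g
  rw [LinChar.mul_fn]
  by_cases hg : g ∈ K.fixingSubgroup
  · rw [LinChar.one_fn _ hg, mul_one]
  · rw [ψ.fn_of_not_mem hg, zero_mul]

/-- **Key step.** -/
theorem key_step (HT : KillsTC A N) (K : IntermediateField ℚ Qb) [NumberField K]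
    (hN : N ≤ InfinitePlace.nrComplexPlaces K) (θ : LinChar K) (hθ : ∀ g, θ.hom g ^ 2 = 1)
    (hθc : ∀ c : K.fixingSubgroup, IsCC (c : GQ) → θ.hom c = 1)
    (hne : ∃ g, θ.hom g ≠ 1) (K1 : IntermediateField ℚ Qb) (hK1 : NumberField K1) (h1 : K ≤ K1)
    (hfix : ∀ g : K.fixingSubgroup, (g : GQ) ∈ K1.fixingSubgroup ↔ θ.hom g = 1)
    (ε : LinChar K) (hε : ∀ g, ε.hom g ^ 2 = 1)
    (hεc : ∃ c : K.fixingSubgroup, IsCC (c : GQ) ∧ ε.hom c = 1) :
    ∃ q : LinChar K1, (∀ g, q.hom g ^ 2 = 1) ∧ ∀ μ : LinChar K,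
      A.D K1 ((μ.res h1).mul q).fn * A.D K (μ.mul ε).fn = A.D K μ.fn := by
  have hK : NumberField K := inferInstance
  obtain ⟨s0, hs00, hs0⟩ := exists_s h1 θ hθ hfix hne
  have hb0 : s0 ^ 2 ∈ K := by
    apply mem_of_fixed
    intro g hg
    by_cases h : θ.hom ⟨g, hg⟩ = 1
    · have h3 : g s0 = s0 := (hs0 ⟨g, hg⟩).1 h
      rw [map_pow, h3]
    · have h3 : g s0 = -s0 := (hs0 ⟨g, hg⟩).2 h
      rw [map_pow, h3, neg_sq]
  obtain ⟨m, hm, hmb⟩ := exists_scale K ⟨s0 ^ 2, hb0⟩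
  have hmQ : (m : Qb) ≠ 0 := by exact_mod_cast hm.ne'
  obtain ⟨s, hsdef⟩ : ∃ s : Qb, s = (m : Qb) * s0 := ⟨_, rfl⟩
  have hsne : s ≠ 0 := by rw [hsdef]; exact mul_ne_zero hmQ hs00
  have hs : ∀ g : K.fixingSubgroup, (θ.hom g = 1 → (g : GQ) s = s) ∧
      (θ.hom g ≠ 1 → (g : GQ) s = -s) := by
    intro g
    refine ⟨fun h => ?_, fun h => ?_⟩
    · rw [hsdef, map_mul, map_natCast, (hs0 g).1 h]
    · rw [hsdef, map_mul, map_natCast, (hs0 g).2 h]; ring
  have hs2 : ∀ g ∈ K.fixingSubgroup, g (s ^ 2) = s ^ 2 := by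
    intro g hg
    by_cases h : θ.hom ⟨g, hg⟩ = 1
    · have h3 : g s = s := (hs ⟨g, hg⟩).1 h
      rw [map_pow, h3]
    · have h3 : g s = -s := (hs ⟨g, hg⟩).2 h
      rw [map_pow, h3, neg_sq]
  have hb : s ^ 2 ∈ K := mem_of_fixed hs2
  have hsb : ∀ j : Qb →+* ℂ, ∀ c : K.fixingSubgroup, Cj j c → ∃ r : ℝ, j s = r ∧ 1 < r ^ 2 := by
    intro j c hc
    have hcs : (c : GQ) s = s := (hs c).1 (hθc c ⟨j, hc⟩)
    have hcs0 : (c : GQ) s0 = s0 := (hs0 c).1 (hθc c ⟨j, hc⟩)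
    have e1 : (starRingEnd ℂ) (j s) = j s := by rw [← hc, hcs]
    have e2 : (starRingEnd ℂ) (j s0) = j s0 := by rw [← hc, hcs0]
    have f1 : j s = ((j s).re : ℂ) := (Complex.conj_eq_iff_re.1 e1).symm
    have f2 : j s0 = ((j s0).re : ℂ) := (Complex.conj_eq_iff_re.1 e2).symm
    refine ⟨(j s).re, f1, ?_⟩
    have hj0 : (j s0).re ≠ 0 := by
      intro h0
      rw [h0, Complex.ofReal_zero] at f2
      exact hs00 ((map_eq_zero j).1 f2)
    have g1 : ((j.comp (algebraMap K Qb)) ⟨s0 ^ 2, hb0⟩).re = (j s0).re ^ 2 := by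
      show (j (s0 ^ 2)).re = _
      rw [map_pow, f2, ← Complex.ofReal_pow, Complex.ofReal_re, Complex.ofReal_re]
    have g2 := hmb (j.comp (algebraMap K Qb)) (by
      rw [g1]; exact lt_of_le_of_ne (sq_nonneg _) (Ne.symm (pow_ne_zero 2 hj0)))
    have g3 : ((j.comp (algebraMap K Qb)) (((m : K) ^ 2) * ⟨s0 ^ 2, hb0⟩)).re =
        (j s).re ^ 2 := by
      have : (j.comp (algebraMap K Qb)) (((m : K) ^ 2) * ⟨s0 ^ 2, hb0⟩) = (j s) ^ 2 := by
        rw [map_mul, map_pow, map_natCast]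
        show (m : ℂ) ^ 2 * j (s0 ^ 2) = _
        rw [hsdef, map_mul, map_natCast, map_pow, mul_pow]
      rw [this, f1, ← Complex.ofReal_pow, Complex.ofReal_re, Complex.ofReal_re]
    rwa [g3] at g2
  -- the element x
  obtain ⟨x', hx'⟩ := exists_x K ⟨s ^ 2, hb⟩ (fun v => ∃ (c : K.fixingSubgroup) (τ : Qb →+* ℂ),
    Cj τ c ∧ InfinitePlace.mk (τ.comp (algebraMap K Qb)) = v ∧ ε.hom c = 1)
  obtain ⟨x, hxdef⟩ : ∃ x : Qb, x = (x' : Qb) := ⟨_, rfl⟩
  have hxfix : ∀ g ∈ K.fixingSubgroup, g x = x := by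
    intro g hg
    rw [hxdef]
    exact (IntermediateField.mem_fixingSubgroup_iff _ _).1 hg _ x'.2
  obtain ⟨P, hP⟩ := IsAlgClosed.exists_pow_nat_eq (k := Qb) (x + s) (n := 2) (by norm_num)
  obtain ⟨Q, hQ⟩ := IsAlgClosed.exists_pow_nat_eq (k := Qb) (x - s) (n := 2) (by norm_num)
  have ht2 : (P * Q) ^ 2 = x ^ 2 - s ^ 2 := by rw [mul_pow, hP, hQ]; ring
  have ht2' : ∀ g ∈ K.fixingSubgroup, g ((P * Q) ^ 2) = (P * Q) ^ 2 := by
    intro g hg
    rw [ht2, map_sub, map_pow g x 2, hxfix g hg, hs2 g hg]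
  -- signs at a real place
  have hreal : ∀ (j : Qb →+* ℂ) (c : K.fixingSubgroup), Cj j c →
      (ε.hom c = 1 → (c : GQ) (P * Q) = -(P * Q) ∧ P * Q ≠ 0) ∧
      (ε.hom c ≠ 1 → (c : GQ) P = P ∧ (c : GQ) Q = Q) := by
    intro j c hc
    obtain ⟨r, hr, hr1⟩ := hsb j c hc
    have hxr : (starRingEnd ℂ) (j x) = j x := by rw [← hc, hxfix c c.2]
    have hxr' : j x = ((j x).re : ℂ) := (Complex.conj_eq_iff_re.1 hxr).symm
    constructor
    · intro hεc
      have h2 := (hx' (j.comp (algebraMap K Qb))).1 ⟨c, j, hc, rfl, hεc⟩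
      have h3 : ‖j x‖ < 1 := by rw [hxdef]; exact h2
      have h4 : (j x).re ^ 2 < 1 := by
        have := lt_of_le_of_lt (Complex.abs_re_le_norm _) h3
        rw [abs_lt] at this
        nlinarith [this.1, this.2]
      have h5 : (j ((P * Q) ^ 2)).re < 0 := by
        rw [ht2, map_sub, map_pow, map_pow, hr, hxr', ← Complex.ofReal_pow,
          ← Complex.ofReal_pow, ← Complex.ofReal_sub, Complex.ofReal_re]
        linarith
      refine ⟨(quad_sign' hc (ht2' c c.2) rfl).2 h5, ?_⟩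
      intro h0
      rw [h0, zero_pow (by norm_num), map_zero, Complex.zero_re] at h5
      exact lt_irrefl _ h5
    · intro hεc
      have h2 := (hx' (j.comp (algebraMap K Qb))).2 (by
        rintro ⟨c', τ', hc', hm', h2'⟩
        apply hεc
        rw [← h2']
        exact ε.eq_of_cj hc hc' (comp_eq_of_mk_eq hc c.2 hm'.symm))
      have h3 : ‖j (s ^ 2)‖ + 1 < (j x).re := by
        have : (j.comp (algebraMap K Qb)) x' = j x := by rw [hxdef]; rfl
        rw [this] at h2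
        exact h2
      have h4 : ‖j (s ^ 2)‖ = r ^ 2 := by
        rw [map_pow, hr, ← Complex.ofReal_pow, Complex.norm_real, Real.norm_eq_abs,
          abs_of_nonneg (sq_nonneg r)]
      rw [h4] at h3
      have hcs : (c : GQ) s = s := (hs c).1 (hθc c ⟨j, hc⟩)
      constructor
      · refine (quad_sign' hc (a := x + s) (by rw [map_add, hxfix c c.2, hcs]) hP).1 ?_
        rw [map_add, hr, Complex.add_re, Complex.ofReal_re]
        nlinarith [sq_nonneg (r + 1)]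
      · refine (quad_sign' hc (a := x - s) (by rw [map_sub, hxfix c c.2, hcs]) hQ).1 ?_
        rw [map_sub, hr, Complex.sub_re, Complex.ofReal_re]
        nlinarith [sq_nonneg (r - 1)]
  -- the second quadratic extension
  obtain ⟨c0, ⟨j0, hc0⟩, hεc0⟩ := hεc
  have ht0 : P * Q ≠ 0 := ((hreal j0 c0 hc0).1 hεc0).2
  have hc0t : (c0 : GQ) (P * Q) = -(P * Q) := ((hreal j0 c0 hc0).1 hεc0).1
  have hc0t' : (c0 : GQ) (P * Q) ≠ P * Q := by
    rw [hc0t]; exact fun h => ht0 (neg_eq_self.1 h)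
  obtain ⟨K2, hK2, h2, hfix2, hD2⟩ := quad_field hK (qc K (P * Q) ht2') (qc_sq ht2')
    ⟨c0, by rw [qc_ne ht2' hc0t']; exact neg_one_ne⟩
  have hK1' : ∀ g ∈ K.fixingSubgroup, g ∈ K1.fixingSubgroup ↔ g s = s := by
    intro g hg
    constructor
    · intro h
      exact (hs ⟨g, hg⟩).1 ((hfix ⟨g, hg⟩).1 h)
    · intro h
      apply (hfix ⟨g, hg⟩).2
      by_contra h3
      have h4 : g s = -s := (hs ⟨g, hg⟩).2 h3
      rw [h] at h4
      exact hsne (self_eq_neg.1 h4)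
  have hK2' : ∀ g ∈ K.fixingSubgroup, g ∈ K2.fixingSubgroup ↔ g (P * Q) = P * Q := by
    intro g hg
    exact (hfix2 ⟨g, hg⟩).trans (qc_one_iff ht2' ⟨g, hg⟩)
  have hqA : ∀ g ∈ K1.fixingSubgroup, g (P ^ 2) = P ^ 2 := by
    intro g hg
    have hgK := IntermediateField.fixingSubgroup_le h1 hg
    rw [hP, map_add, hxfix g hgK, (hK1' g hgK).1 hg]
  have hqC : ∀ g ∈ K2.fixingSubgroup, g ((P + Q) ^ 2) = (P + Q) ^ 2 := by
    intro g hg
    have hgK := IntermediateField.fixingSubgroup_le h2 hg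
    have e1 : (P + Q) ^ 2 = 2 * x + 2 * (P * Q) := by
      have : (P + Q) ^ 2 = P ^ 2 + Q ^ 2 + 2 * (P * Q) := by ring
      rw [this, hP, hQ]; ring
    rw [e1, map_add, map_mul, map_mul, hxfix g hgK, (hK2' g hgK).1 hg, map_ofNat]
  obtain ⟨g0, hg0⟩ := hne
  have hg0s : (g0 : GQ) s ≠ s := by
    rw [(hs g0).2 hg0]; exact fun h => hsne (neg_eq_self.1 h)
  have hid := d4 h1 h2 hxfix hs2 hP hQ rfl hK1' hK2' ⟨g0, g0.2, hg0s⟩ ⟨c0, c0.2, hc0t'⟩ hqA hqC
  refine ⟨qc K1 P hqA, qc_sq hqA, fun μ => ?_⟩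
  have e1 : A.D K1 ((μ.res h1).mul (qc K1 P hqA)).fn =
      A.D K2 ((μ.res h2).mul (qc K2 (P + Q) hqC)).fn := by
    rw [← A.map_ind K K1 hK1 h1, ← A.map_ind K K2 hK2 h2]
    congr 1
    funext g
    rw [ind_proj h1, ind_proj h2, hid]
  have e2 : A.D K2 ((μ.res h2).mul (qc K2 (P + Q) hqC)).fn = A.D K2 (μ.res h2).fn := by
    refine even_twist HT K2 (hN.trans (r2_mono h2)) _ _ (qc_sq hqC) ?_
    rintro c ⟨j, hc⟩
    have hcK : (c : GQ) ∈ K.fixingSubgroup := IntermediateField.fixingSubgroup_le h2 c.2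
    have h5 := (hK2' _ hcK).1 c.2
    have h6 := (hreal j ⟨(c : GQ), hcK⟩ hc)
    have h7 : ε.hom ⟨(c : GQ), hcK⟩ ≠ 1 := by
      intro h8
      have h9 := (h6.1 h8).1
      have h10 : (c : GQ) (P * Q) = -(P * Q) := h9
      rw [h5] at h10
      exact ht0 (self_eq_neg.1 h10)
    have h8 := h6.2 h7
    apply qc_fix hqC
    show (c : GQ) (P + Q) = P + Q
    rw [map_add]
    have h9 : (c : GQ) P = P := h8.1
    have h10 : (c : GQ) Q = Q := h8.2
    rw [h9, h10]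
  have e3 := hD2 A μ
  have e4 := odd_twist HT K hN (μ.mul ε) (ε.mul (qc K (P * Q) ht2')) (by
      intro g
      show (ε.hom g * (qc K (P * Q) ht2').hom g) ^ 2 = 1
      rw [mul_pow, hε, qc_sq ht2', one_mul]) (by
      rintro c ⟨j, hc⟩
      show ε.hom c * (qc K (P * Q) ht2').hom c = -1
      by_cases h8 : ε.hom c = 1
      · have h9 := ((hreal j c hc).1 h8).1
        rw [h8, qc_ne ht2' (by rw [h9]; exact fun h => ht0 (neg_eq_self.1 h)), one_mul]
      · obtain ⟨h9, h10⟩ := (hreal j c hc).2 h8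
        rw [(sq_one_cases (hε c)).resolve_left h8, qc_fix ht2' (by rw [map_mul, h9, h10]),
          mul_one])
  have e5 : ((μ.mul ε).mul (ε.mul (qc K (P * Q) ht2'))).fn = (μ.mul (qc K (P * Q) ht2')).fn := by
    funext g
    rw [LinChar.mul_fn, LinChar.mul_fn, LinChar.mul_fn, LinChar.mul_fn]
    by_cases hg : g ∈ K.fixingSubgroup
    · have h9 : ε.fn g * ε.fn g = 1 := by
        rw [ε.fn_of_mem hg]
        have := congrArg Units.val (hε ⟨g, hg⟩)
        rw [sq] at this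
        simpa using this
      calc μ.fn g * ε.fn g * (ε.fn g * (qc K (P * Q) ht2').fn g)
          = μ.fn g * (ε.fn g * ε.fn g) * (qc K (P * Q) ht2').fn g := by ring
        _ = _ := by rw [h9, mul_one]
    · rw [μ.fn_of_not_mem hg]; ring
  rw [e5] at e4
  rw [e1, e2, e3, mul_assoc, mul_comm (A.D K (μ.mul (qc K (P * Q) ht2')).fn), e4, mul_one]

end Fam

end Pool.Agent.TH743.SS
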