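import Pool.Agent.TH743.SS.Step
import Pool.Agent.TH965.St.Transfer

open NumberField

namespace Pool.Agent.TH743.SS

open Pool.Agent.TH965.St

variable {M : Type} [CommGroup M] {A : Family M} {N : ℕ}

/-- **Characters of 2-power order, even at all real places.** -/
theorem two_power (HT : KillsTC A N)
    (H1 : ∀ (K : IntermediateField ℚ Qb) [NumberField K],
      N ≤ InfinitePlace.nrComplexPlaces K → ∀ ψ : LinChar K, (∀ g, ψ.hom g = 1) →
      A.D K ψ.fn = 1) :
    ∀ a : ℕ, ∀ (K : IntermediateField ℚ Qb) [NumberField K],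
      N ≤ InfinitePlace.nrComplexPlaces K → ∀ ψ : LinChar K, (∀ g, ψ.hom g ^ (2 ^ a) = 1) →
      (∀ c : K.fixingSubgroup, IsCC (c : GQ) → ψ.hom c = 1) →
      (∀ ε : LinChar K, (∀ g, ε.hom g ^ 2 = 1) → A.D K (ψ.mul ε).fn = A.D K ψ.fn) ∧
      A.D K ψ.fn ^ 2 = 1 := by
  intro a
  induction a with
  | zero =>
    intro K hK hN ψ ha _
    have ha' : ∀ g, ψ.hom g = 1 := fun g => by
      have := ha g
      rwa [pow_zero, pow_one] at this
    have hψ : A.D K ψ.fn = 1 := H1 K hN ψ ha'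
    refine ⟨fun ε hε => ?_, by rw [hψ, one_pow]⟩
    by_cases hne : ∃ g, ε.hom g ≠ 1
    · obtain ⟨K', hK', h, hfix, hD⟩ := quad_field hK ε hε hne
      have h1 := hD A ψ
      rw [H1 K' (hN.trans (r2_mono h)) _ (fun g => ha' _), hψ, one_mul] at h1
      rw [← h1, hψ]
    · push Not at hne
      rw [hψ]
      refine H1 K hN _ (fun g => ?_)
      show ψ.hom g * ε.hom g = 1
      rw [ha', hne, one_mul]
  | succ a ih =>
    intro K hK hN ψ ha hev
    by_cases hcc : ∀ c ∈ K.fixingSubgroup, ¬ IsCC c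
    · refine ⟨fun ε _ => ?_, ?_⟩
      · rw [HT K hN hcc, HT K hN hcc]
      · rw [HT K hN hcc, one_pow]
    push Not at hcc
    obtain ⟨c0, hc0K, hc0⟩ := hcc
    have hθ : ∀ g, (ψ.pow (2 ^ a)).hom g ^ 2 = 1 := by
      intro g
      show (ψ.hom g ^ (2 ^ a)) ^ 2 = 1
      rw [← pow_mul, ← pow_succ, ha]
    by_cases hne : ∃ g, (ψ.pow (2 ^ a)).hom g ≠ 1
    swap
    · push Not at hne
      exact ih K hN ψ hne hev
    have hθc : ∀ c : K.fixingSubgroup, IsCC (c : GQ) → (ψ.pow (2 ^ a)).hom c = 1 := by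
      intro c hc
      show ψ.hom c ^ (2 ^ a) = 1
      rw [hev c hc, one_pow]
    obtain ⟨K1, hK1, h1, hfix, hD⟩ := quad_field hK (ψ.pow (2 ^ a)) hθ hne
    have hN1 := hN.trans (r2_mono h1)
    have hψ1 := ih K1 hN1 (ψ.res h1) (fun g => (hfix _).1 g.2) (fun c hc =>
      hev ⟨(c : GQ), IntermediateField.fixingSubgroup_le h1 c.2⟩ hc)
    -- twists positive at some real place
    have hpos : ∀ ε : LinChar K, (∀ g, ε.hom g ^ 2 = 1) →
        (∃ c : K.fixingSubgroup, IsCC (c : GQ) ∧ ε.hom c = 1) →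
        A.D K1 (ψ.res h1).fn * A.D K (ψ.mul ε).fn = A.D K ψ.fn := by
      intro ε hε hεc
      obtain ⟨q, hq, hq2⟩ := key_step HT K hN (ψ.pow (2 ^ a)) hθ hθc hne K1 hK1 h1 hfix ε hε hεc
      rw [← hq2 ψ, hψ1.1 q hq]
    have hone : A.D K1 (ψ.res h1).fn = 1 := by
      have h2 := hpos LinChar.one (fun g => one_pow _) ⟨⟨c0, hc0K⟩, hc0, rfl⟩
      rw [mul_one_fn] at h2
      exact mul_eq_right.1 h2
    have hsq : A.D K ψ.fn ^ 2 = 1 := by
      have h2 := hD A ψ
      rw [hone, even_twist HT K hN ψ _ hθ hθc] at h2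
      rw [sq, ← h2]
    refine ⟨fun ε hε => ?_, hsq⟩
    by_cases hεc : ∃ c : K.fixingSubgroup, IsCC (c : GQ) ∧ ε.hom c = 1
    · have h2 := hpos ε hε hεc
      rwa [hone, one_mul] at h2
    · push Not at hεc
      have h2 := odd_twist HT K hN ψ ε hε (fun c hc =>
        (sq_one_cases (hε c)).resolve_left (hεc c hc))
      rw [sq] at hsq
      exact mul_left_cancel (h2.trans hsq.symm)

/-- the family of the squares -/
def sqFam (A : Family M) : Family M where
  D K f := A.D K f ^ 2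
  map_add K hK f hf g hg := by rw [A.map_add K hK f hf g hg, mul_pow]
  map_ind K K' hK' h ψ := by rw [A.map_ind K K' hK' h ψ]

/-- **Squares are determined by totally complex fields and trivial characters.** -/
theorem up_to_sign (A : Family M) (N : ℕ)
    (H : ∀ (K : IntermediateField ℚ Qb) [NumberField K], N ≤ InfinitePlace.nrComplexPlaces K →
      ∀ ψ : LinChar K, (IsTotallyComplex K ∨ ∀ g, ψ.hom g = 1) → A.D K ψ.fn = 1) :
    ∀ K : IntermediateField ℚ Qb, NumberField K → ∀ f ∈ Virt K, A.D K f ^ 2 = 1 := by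
  have HT : KillsTC A N := fun K _ hN hc ψ => H K hN ψ (Or.inl (totallyComplex_of_no_cc hc))
  have H1 : ∀ (K : IntermediateField ℚ Qb) [NumberField K],
      N ≤ InfinitePlace.nrComplexPlaces K → ∀ ψ : LinChar K, (∀ g, ψ.hom g = 1) →
      A.D K ψ.fn = 1 := fun K _ hN ψ h => H K hN ψ (Or.inr h)
  have h := (main2 (sqFam A) N 1 (Or.inl rfl)).2 ?_
  · exact h
  · intro K hK hN ψ hev hor
    show A.D K ψ.fn ^ 2 = 1
    rcases hor with h | ⟨a, ha⟩
    · rw [H K hN ψ (Or.inl h), one_pow]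
    · exact (two_power HT H1 a K hN ψ ha hev).2

end Pool.Agent.TH743.SS
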