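import Pool.Agent.TH743.SS.Thm

open NumberField

namespace Pool.Agent.TH743.SS

open Pool.Agent.TH965.St

variable {M : Type} [CommGroup M] {A : Family M} {N : ℕ}

theorem fn_congr {K : IntermediateField ℚ Qb} {ψ φ : LinChar K} (h : ∀ g, ψ.hom g = φ.hom g) :
    ψ.fn = φ.fn := by
  funext g
  by_cases hg : g ∈ K.fixingSubgroup
  · rw [ψ.fn_of_mem hg, φ.fn_of_mem hg, h]
  · rw [ψ.fn_of_not_mem hg, φ.fn_of_not_mem hg]

/-- twists by characters of odd prime power order -/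
theorem odd_pp_twist (HT : KillsTC A N) (K : IntermediateField ℚ Qb) [NumberField K]
    (hN : N ≤ InfinitePlace.nrComplexPlaces K) {l k : ℕ} (hl : l.Prime) (hl2 : l ≠ 2)
    (ψ η : LinChar K) (hη : ∀ g, η.hom g ^ (l ^ k) = 1) :
    A.D K (ψ.mul η).fn = A.D K ψ.fn := by
  have hK : NumberField K := inferInstance
  by_cases hne : ∃ g, η.hom g ≠ 1
  · obtain ⟨K2, hK2, hKK2, hcc, hind⟩ := odd_step hK hl hl2 hη hne
    have hN2 := hN.trans (r2_mono hKK2)
    have h1 := A.odd_swap hK hK2 hKK2 ψ η hind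
    rw [HT K2 hN2 hcc, HT K2 hN2 hcc, mul_one, mul_one] at h1
    exact h1
  · push Not at hne
    congr 1
    refine fn_congr fun g => ?_
    show ψ.hom g * η.hom g = ψ.hom g
    rw [hne, mul_one]

/-- splitting off a prime power from the order -/
theorem exists_split {K : IntermediateField ℚ Qb} (η : LinChar K) {d m : ℕ} (hm : Odd m)
    (hm1 : m ≠ 1) (hd : ∃ a, d = 2 ^ a) (hη : ∀ g, η.hom g ^ (d * m) = 1) :
    ∃ (l k m' t : ℕ), l.Prime ∧ l ≠ 2 ∧ m' < m ∧ Odd m' ∧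
      (∀ g, (η.pow t).hom g ^ (l ^ k) = 1) ∧ (∀ g, (η.mul (η.pow t)).hom g ^ (d * m') = 1) := by
  obtain ⟨a, rfl⟩ := hd
  obtain ⟨l, hl, hlm⟩ := Nat.exists_prime_and_dvd hm1
  have hm0 : m ≠ 0 := hm.pos.ne'
  obtain ⟨k, m', hlm', hmm⟩ := Nat.exists_eq_pow_mul_and_not_dvd hm0 l hl.ne_one
  have hl2 : l ≠ 2 := by
    rintro rfl
    exact (Nat.not_even_iff_odd.2 hm) (even_iff_two_dvd.2 hlm)
  have hk0 : k ≠ 0 := by
    rintro rfl
    rw [pow_zero, one_mul] at hmm
    exact hlm' (hmm ▸ hlm)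
  have hm'0 : 0 < m' := Nat.pos_of_ne_zero (by rintro rfl; exact hm0 (by rw [hmm, mul_zero]))
  have hm'm : m' < m := by
    rw [hmm]
    have : 1 < l ^ k := Nat.one_lt_pow hk0 hl.one_lt
    nlinarith
  have hoddm' : Odd m' := by
    rw [hmm] at hm
    exact (Nat.odd_mul.1 hm).2
  have hcop : Nat.Coprime (l ^ k) (2 ^ a * m') := by
    apply Nat.Coprime.pow_left
    rw [Nat.coprime_mul_iff_right]
    refine ⟨Nat.Coprime.pow_right _ ?_, (Nat.Prime.coprime_iff_not_dvd hl).2 hlm'⟩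
    exact (Nat.coprime_primes hl Nat.prime_two).2 hl2
  obtain ⟨t, ht1, ht2⟩ := Nat.chineseRemainder hcop (l ^ k - 1) 0
  have hlk : 0 < l ^ k := pow_pos hl.pos k
  have ht1' : l ^ k ∣ t + 1 := by
    have h1 : (t + 1) ≡ (l ^ k - 1 + 1) [MOD l ^ k] := ht1.add_right 1
    rw [Nat.sub_add_cancel hlk] at h1
    exact (Nat.modEq_zero_iff_dvd).1 (h1.trans (by simp [Nat.ModEq]))
  have ht2' : 2 ^ a * m' ∣ t := (Nat.modEq_zero_iff_dvd).1 ht2
  refine ⟨l, k, m', t, hl, hl2, hm'm, hoddm', ?_, ?_⟩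
  · intro g
    show (η.hom g ^ t) ^ (l ^ k) = 1
    obtain ⟨u, hu⟩ := ht2'
    rw [← pow_mul]
    have : t * l ^ k = 2 ^ a * m * u := by rw [hu, hmm]; ring
    rw [this, pow_mul, hη, one_pow]
  · intro g
    show (η.hom g * η.hom g ^ t) ^ (2 ^ a * m') = 1
    obtain ⟨u, hu⟩ := ht1'
    rw [← pow_succ', ← pow_mul]
    have : (t + 1) * (2 ^ a * m') = 2 ^ a * m * u := by rw [hu, hmm]; ring
    rw [this, pow_mul, hη, one_pow]

/-- the 2-part of a linear character -/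
theorem exists_two_part (HT : KillsTC A N) (K : IntermediateField ℚ Qb) [NumberField K]
    (hN : N ≤ InfinitePlace.nrComplexPlaces K) (ψ : LinChar K) :
    ∃ η : LinChar K, (∃ a : ℕ, ∀ g, (ψ.mul η).hom g ^ (2 ^ a) = 1) ∧
      ∀ φ : LinChar K, A.D K (φ.mul η).fn = A.D K φ.fn := by
  have HO : ∀ m : ℕ, Odd m → ∀ (ψ : LinChar K) (a : ℕ),
      (∀ g, ψ.hom g ^ (2 ^ a * m) = 1) → ∃ η : LinChar K,
        (∃ a : ℕ, ∀ g, (ψ.mul η).hom g ^ (2 ^ a) = 1) ∧
        ∀ φ : LinChar K, A.D K (φ.mul η).fn = A.D K φ.fn := by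
    intro m
    induction m using Nat.strong_induction_on with
    | _ m ih =>
      intro hm ψ a ha
      by_cases hm1 : m = 1
      · refine ⟨LinChar.one, ⟨a, fun g => ?_⟩, fun φ => by rw [mul_one_fn]⟩
        have h1 := ha g
        rw [hm1, mul_one] at h1
        show (ψ.hom g * 1) ^ (2 ^ a) = 1
        rw [mul_one, h1]
      · obtain ⟨l, k, m', t, hl, hl2, hm'm, hoddm', h1, h2⟩ := exists_split ψ hm hm1 ⟨a, rfl⟩ ha
        obtain ⟨η, ⟨b, hb⟩, hη⟩ := ih m' hm'm hoddm' (ψ.mul (ψ.pow t)) a h2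
        refine ⟨(ψ.pow t).mul η, ⟨b, fun g => ?_⟩, fun φ => ?_⟩
        · rw [← hb g]
          congr 1
          show ψ.hom g * ((ψ.pow t).hom g * η.hom g) = ψ.hom g * (ψ.pow t).hom g * η.hom g
          rw [mul_assoc]
        · have e : (φ.mul ((ψ.pow t).mul η)).fn = ((φ.mul (ψ.pow t)).mul η).fn := by
            refine fn_congr fun g => ?_
            show φ.hom g * ((ψ.pow t).hom g * η.hom g) = φ.hom g * (ψ.pow t).hom g * η.hom g
            rw [mul_assoc]
          rw [e, hη, odd_pp_twist HT K hN hl hl2 φ _ h1]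
  obtain ⟨n, hn, hn2⟩ := ψ.finite_order
  obtain ⟨a, m, hm, hnm⟩ := Nat.exists_eq_two_pow_mul_odd hn.ne'
  exact HO m hm ψ a (fun g => by rw [← hnm]; exact hn2 g)

/-- an even quadratic twist of a character of 2-power order -/
theorem exists_even_twist (K : IntermediateField ℚ Qb) (hK : NumberField K) (ψ : LinChar K) :
    ∃ ω : LinChar K, (∀ g, ω.hom g ^ 2 = 1) ∧
      ∀ c : K.fixingSubgroup, IsCC (c : GQ) → (ψ.mul ω).hom c = 1 := by
  by_cases h : ψ.HasSign 1
  · refine ⟨LinChar.one, fun g => one_pow _, fun c hc => ?_⟩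
    show ψ.hom c * 1 = 1
    rw [mul_one, h c hc]
  · obtain ⟨s, b, hs, hne, h, ω, h1, hω, h2, h3⟩ := quad_step hK ψ 1 (Or.inl rfl) h
    exact ⟨ω, hω, h1⟩

/-- twists by quadratic characters -/
theorem quad_twist (HT : KillsTC A N)
    (H1 : ∀ (K : IntermediateField ℚ Qb) [NumberField K],
      N ≤ InfinitePlace.nrComplexPlaces K → ∀ ψ : LinChar K, (∀ g, ψ.hom g = 1) →
      A.D K ψ.fn = 1) (K : IntermediateField ℚ Qb) [NumberField K]
    (hN : N ≤ InfinitePlace.nrComplexPlaces K) (ψ ε : LinChar K) (hε : ∀ g, ε.hom g ^ 2 = 1) :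
    A.D K (ψ.mul ε).fn = A.D K ψ.fn := by
  obtain ⟨η, ⟨a, ha⟩, hη⟩ := exists_two_part HT K hN ψ
  obtain ⟨ω, hω, hωc⟩ := exists_even_twist K inferInstance (ψ.mul η)
  have hP := (two_power HT H1 (a + 1) K hN ((ψ.mul η).mul ω) (fun g => by
    show ((ψ.mul η).hom g * ω.hom g) ^ (2 ^ (a + 1)) = 1
    rw [mul_pow, pow_succ 2 a, pow_mul, ha, one_pow, one_mul, mul_comm (2 ^ a) 2, pow_mul,
      hω, one_pow]) hωc).1
  have e1 : A.D K ψ.fn = A.D K ((ψ.mul η).mul ω).fn := by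
    rw [← hη ψ, ← hP ω hω]
    congr 1
    refine fn_congr fun g => ?_
    show (ψ.mul η).hom g = (ψ.mul η).hom g * ω.hom g * ω.hom g
    rw [mul_assoc, ← sq, hω, mul_one]
  have e2 : A.D K (ψ.mul ε).fn = A.D K ((ψ.mul η).mul ω).fn := by
    rw [← hη (ψ.mul ε), ← hP (ω.mul ε) (fun g => by
      show (ω.hom g * ε.hom g) ^ 2 = 1
      rw [mul_pow, hω, hε, mul_one])]
    congr 1
    refine fn_congr fun g => ?_
    show ψ.hom g * ε.hom g * η.hom g =
      ψ.hom g * η.hom g * ω.hom g * (ω.hom g * ε.hom g)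
    have h1 : ω.hom g * ω.hom g = 1 := by rw [← sq, hω]
    calc ψ.hom g * ε.hom g * η.hom g = ψ.hom g * η.hom g * ε.hom g := by
          rw [mul_right_comm]
      _ = ψ.hom g * η.hom g * (ω.hom g * ω.hom g) * ε.hom g := by rw [h1, mul_one]
      _ = _ := by simp only [mul_assoc]
  rw [e1, e2]

/-- twists by characters of order not divisible by four -/
theorem twist (HT : KillsTC A N)
    (H1 : ∀ (K : IntermediateField ℚ Qb) [NumberField K],
      N ≤ InfinitePlace.nrComplexPlaces K → ∀ ψ : LinChar K, (∀ g, ψ.hom g = 1) →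
      A.D K ψ.fn = 1) (K : IntermediateField ℚ Qb) [NumberField K]
    (hN : N ≤ InfinitePlace.nrComplexPlaces K) :
    ∀ m : ℕ, Odd m → ∀ (ψ η : LinChar K), (∀ g, η.hom g ^ (2 * m) = 1) →
    A.D K (ψ.mul η).fn = A.D K ψ.fn := by
  intro m
  induction m using Nat.strong_induction_on with
  | _ m ih =>
    intro hm ψ η hη
    by_cases hm1 : m = 1
    · refine quad_twist HT H1 K hN ψ η (fun g => ?_)
      have h1 := hη g
      rwa [hm1, mul_one] at h1
    · obtain ⟨l, k, m', t, hl, hl2, hm'm, hoddm', h1, h2⟩ :=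
        exists_split η hm hm1 ⟨1, (pow_one 2).symm⟩ hη
      have h3 := ih m' hm'm hoddm' ψ (η.mul (η.pow t)) h2
      have h4 := odd_pp_twist HT K hN hl hl2 (ψ.mul η) (η.pow t) h1
      rw [← h4, ← h3]
      congr 1
      refine fn_congr fun g => ?_
      show ψ.hom g * η.hom g * (η.pow t).hom g = ψ.hom g * (η.hom g * (η.pow t).hom g)
      rw [mul_assoc]

/-- raising the number of complex places -/
theorem raise_data (N : ℕ) {K : IntermediateField ℚ Qb} (hK : NumberField K) :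
    ∃ (K1 K2 : IntermediateField ℚ Qb) (_ : NumberField K1) (_ : NumberField K2) (h1 : K ≤ K1)
      (h2 : K ≤ K2) (ι : Type) (_ : Fintype ι) (μ : ι → LinChar K2),
      N ≤ InfinitePlace.nrComplexPlaces K1 ∧ N ≤ InfinitePlace.nrComplexPlaces K2 ∧
      ∀ {M : Type} [CommGroup M] (A : Family M) (ψ : LinChar K),
        A.D K1 (ψ.res h1).fn = A.D K ψ.fn * ∏ a, A.D K2 ((ψ.res h2).mul (μ a)).fn := by
  classical
  obtain ⟨p, hp, hpp⟩ := Nat.exists_infinite_primes (Module.finrank ℚ K + 2 * N + 3)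
  have : Fact p.Prime := ⟨hpp⟩
  obtain ⟨ζ, hζ⟩ : ∃ ζ : Qb, IsPrimitiveRoot ζ p := by
    have : NeZero (p : Qb) := ⟨by exact_mod_cast hpp.ne_zero⟩
    exact HasEnoughRootsOfUnity.exists_primitiveRoot Qb p
  obtain ⟨y, hy⟩ : ∃ y : Qb, y ^ p = 2 := IsAlgClosed.exists_pow_nat_eq 2 hpp.pos
  have hy0 : y ≠ 0 := by
    rintro rfl
    rw [zero_pow hpp.ne_zero] at hy
    norm_num at hy
  obtain ⟨τ⟩ : Nonempty (Qb →+* ℂ) := ⟨(IsAlgClosed.lift (R := ℚ) (S := Qb) (M := ℂ)).toRingHom⟩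
  have hFy : NumberField (IntermediateField.adjoin ℚ {y}) := nf_adjoin y
  have hFz : NumberField (IntermediateField.adjoin ℚ {ζ}) := nf_adjoin ζ
  have hK1 : NumberField (K ⊔ IntermediateField.adjoin ℚ {y} : IntermediateField ℚ Qb) :=
    nf_sup hK hFy
  have hK2 : NumberField (K ⊔ IntermediateField.adjoin ℚ {ζ} : IntermediateField ℚ Qb) :=
    nf_sup hK hFz
  have hyp : ∀ g : GQ, g (y ^ p) = y ^ p := by
    intro g
    rw [hy, map_ofNat]
  have hp2 : p ≠ 2 := by omega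
  have r1 : N ≤ InfinitePlace.nrComplexPlaces
      (K ⊔ IntermediateField.adjoin ℚ {y} : IntermediateField ℚ Qb) := by
    have a1 := r2_two hpp hp2 hy
    have a2 := r2_mono (F := IntermediateField.adjoin ℚ {y})
      (F' := K ⊔ IntermediateField.adjoin ℚ {y}) le_sup_right
    omega
  have r2 : N ≤ InfinitePlace.nrComplexPlaces
      (K ⊔ IntermediateField.adjoin ℚ {ζ} : IntermediateField ℚ Qb) := by
    have a1 := r2_cyc hpp hp2 hζ
    have a2 := r2_mono (F := IntermediateField.adjoin ℚ {ζ})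
      (F' := K ⊔ IntermediateField.adjoin ℚ {ζ}) le_sup_right
    omega
  exact ⟨K ⊔ IntermediateField.adjoin ℚ {y}, K ⊔ IntermediateField.adjoin ℚ {ζ}, hK1, hK2,
    le_sup_left, le_sup_left, _, inferInstance, _, r1, r2,
    fun A ψ => A.of_identity hK hK1 hK2 le_sup_left le_sup_left _
    (kummer_identity (K := K) (K1 := K ⊔ IntermediateField.adjoin ℚ {y})
      (K2 := K ⊔ IntermediateField.adjoin ℚ {ζ}) hζ τ hy0 le_sup_left le_sup_left
      (fun g _ => hyp g) (fun g _ => hyp g)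
      (fun g hg => ((mem_fix_sup K ζ g).1 hg).2)
      (fun g hg => ⟨fun h => ((mem_fix_sup K ζ g).1 h).2, fun h => (mem_fix_sup K ζ g).2 ⟨hg, h⟩⟩)
      (fun g hg => ⟨fun h => ((mem_fix_sup K y g).1 h).2, fun h => (mem_fix_sup K y g).2 ⟨hg, h⟩⟩)
      (fun i => trans_two hζ K (by omega) hy i)) ψ⟩

/-- **Twists of virtual characters.** -/
theorem twist_virt (A : Family M) (N : ℕ)
    (H : ∀ (K : IntermediateField ℚ Qb) [NumberField K], N ≤ InfinitePlace.nrComplexPlaces K →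
      ∀ ψ : LinChar K, (IsTotallyComplex K ∨ ∀ g, ψ.hom g = 1) → A.D K ψ.fn = 1)
    {m : ℕ} (hm : Odd m) (K : IntermediateField ℚ Qb) (hK : NumberField K) (η : LinChar K)
    (hη : ∀ g, η.hom g ^ (2 * m) = 1) :
    ∀ f ∈ Virt K, (fun g => f g * η.fn g) ∈ Virt K ∧
      A.D K (fun g => f g * η.fn g) = A.D K f := by
  have HT : KillsTC A N := fun K _ hN hc ψ => H K hN ψ (Or.inl (totallyComplex_of_no_cc hc))
  have H1 : ∀ (K : IntermediateField ℚ Qb) [NumberField K],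
      N ≤ InfinitePlace.nrComplexPlaces K → ∀ ψ : LinChar K, (∀ g, ψ.hom g = 1) →
      A.D K ψ.fn = 1 := fun K _ hN ψ h => H K hN ψ (Or.inr h)
  -- linear characters, all fields
  have HL : ∀ (K' : IntermediateField ℚ Qb), NumberField K' → ∀ (ψ ρ : LinChar K'),
      (∀ g, ρ.hom g ^ (2 * m) = 1) → A.D K' (ψ.mul ρ).fn = A.D K' ψ.fn := by
    intro K' hK' ψ ρ hρ
    obtain ⟨K1, K2, hK1, hK2, h1, h2, ι, hι, μ, r1, r2, hD⟩ := raise_data N hK'
    have e1 := hD A ψ
    have e2 := hD A (ψ.mul ρ)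
    have e3 : A.D K1 ((ψ.mul ρ).res h1).fn = A.D K1 (ψ.res h1).fn :=
      twist HT H1 K1 r1 m hm (ψ.res h1) (ρ.res h1) (fun g => hρ _)
    have e4 : ∀ a, A.D K2 (((ψ.mul ρ).res h2).mul (μ a)).fn =
        A.D K2 ((ψ.res h2).mul (μ a)).fn := by
      intro a
      rw [← twist HT H1 K2 r2 m hm ((ψ.res h2).mul (μ a)) (ρ.res h2) (fun g => hρ _)]
      congr 1
      refine fn_congr fun g => ?_
      show (ψ.res h2).hom g * (ρ.res h2).hom g * (μ a).hom g =
        (ψ.res h2).hom g * (μ a).hom g * (ρ.res h2).hom g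
      rw [mul_right_comm]
    rw [e3, Finset.prod_congr rfl (fun a _ => e4 a), e1] at e2
    exact (mul_right_cancel e2).symm
  intro f hf
  induction hf using AddSubgroup.closure_induction with
  | mem f hf =>
    obtain ⟨K', hKK, hK', ψ, rfl⟩ := hf
    have e : (fun g => ind K K' ψ.fn g * η.fn g) = ind K K' ((η.res hKK).mul ψ).fn := by
      funext g
      rw [ind_proj hKK, mul_comm]
    have e' : ((η.res hKK).mul ψ).fn = (ψ.mul (η.res hKK)).fn := by
      refine fn_congr fun g => ?_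
      show (η.res hKK).hom g * ψ.hom g = ψ.hom g * (η.res hKK).hom g
      rw [mul_comm]
    rw [e]
    refine ⟨ind_mem_virt hKK hK' _, ?_⟩
    rw [A.map_ind K K' hK' hKK, A.map_ind K K' hK' hKK, e']
    exact HL K' hK' ψ _ (fun g => hη _)
  | zero =>
    have e : (fun g => (0 : GQ → ℂ) g * η.fn g) = 0 := by
      funext g; simp
    rw [e]
    exact ⟨(Virt K).zero_mem, rfl⟩
  | add f g hf hg h1 h2 =>
    have e : (fun x => (f + g) x * η.fn x) = (fun x => f x * η.fn x) + (fun x => g x * η.fn x) := by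
      funext x
      simp only [Pi.add_apply]
      ring
    rw [e]
    refine ⟨(Virt K).add_mem h1.1 h2.1, ?_⟩
    rw [A.map_add K hK _ h1.1 _ h2.1, A.map_add K hK f hf g hg, h1.2, h2.2]
  | neg f hf h1 =>
    have e : (fun x => (-f) x * η.fn x) = -(fun x => f x * η.fn x) := by
      funext x
      simp
    have key : ∀ u ∈ Virt K, A.D K (-u) = (A.D K u)⁻¹ := by
      intro u hu
      have h := A.map_add K hK u hu (-u) ((Virt K).neg_mem hu)
      rw [add_neg_cancel, A.zero hK] at h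
      exact (inv_eq_of_mul_eq_one_right h.symm).symm
    rw [e]
    refine ⟨(Virt K).neg_mem h1.1, ?_⟩
    rw [key _ h1.1, key f hf, h1.2]

end Pool.Agent.TH743.SS
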